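import Pool.Agent.Helper723_X15.Rel

/-!
# Rank and order of vanishing of the twists of the non-CM curve `X_0(15)`, of any rank, do not change in
# `k(√D)` for a positive proportion of all the `D`; infinite towers

`E_M : y² = x³ - 12987 M² x - 263466 M³` is the quadratic twist by `M` of `X_0(15)`, an elliptic curve without
complex multiplication, and `Cls` is the set of ALL the squarefree numbers `D ≡ 1` or `49` modulo `60`, with
no condition on the prime factors: a set of positive density `5 / (16 π²)`. Let `k = ℚ(√d_1, …, √d_n)` be a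
field of degree `2ⁿ` (`n ≥ 0`), `M` and the `d_i` being in the class up to squares, no `M ∏_{i ∈ T} d_i` being a
square. NOTHING is assumed on the rank or the `L`-function of `E_M`. Let `c = ∏_{i ≥ 1} (1 - 2^{-i}) = 0.2887...`.

* For exactly the proportion `c ^ 2ⁿ` of the `D` of the class `K = k(√D)` has degree `2` over `k` and the pair
  `(M D, d)` is good: for all the `2ⁿ` twists `E_{M D ∏_{i ∈ T} d_i}` the group of the rational points is finite
  and `Ш(ℚ)` has no element of order two.
* For these `D`, so for at least `(5 c ^ 2ⁿ / (16 π²) - ε) X` of the `D ≤ X`: the `L`-functions of `E_M` over `k`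
  and over `K` are meromorphic, holomorphic at `s = 1`, they have the same finite order `r` there, and
  `rank E_M(K) = rank E_M(k)`. So `ord_{s=1} L(E_M/K, s) - rank E_M(K)` and its parity are the same as for `k`:
  the conjecture modulo `2` holds for `E_M` over `K` if and only if it holds over `k` (and the same for the
  rank conjecture).
* There is an infinite tower of such extensions `k = K_n ⊂ K_{n+1} ⊂ …`, `K_{m+1} = K_m(√e_m)`: order and rank do
  not change in any of the steps.

The Euler factors at the finitely many places over `30 M ∏ d_i` (and `D`) are arbitrary Euler factors of the kind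
that an elliptic curve has; so the statement does not depend on the computation of the minimal models there.

The proportion is from helper382's and helper735's law (`Pool/Agent/Helper382_X15/Fam.lean`, `Pool/Agent/H735X`),
the twists of rank zero are from the project X15 of helper757, the factorisation of the `L`-function is from
the starting file `Pool/Agent/Y73/QMQ1.lean`, the rank in a quadratic extension from the starting file
`Pool/Agent/W612/RS`. The proof is in `Pool/Agent/Helper723_X15/Rel.lean`.
-/

set_option autoImplicit false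

open NumberField IsDedekindDomain Filter Topology

namespace Pool.Agent.Results.MP_413b36_nt.AnyRankX15

open Pool.Agent.Results.MP_50bb2e_nt.MultiquadraticX15 (Cls UpTo InCls Ind RankZeroShaTwo GoodPair
  IsMultiquadratic IsL qv av c num)
open Pool.Agent.Helper382_X15 (Curve)
open Pool.Agent.Helper723_X15 (HasOrder Stable Admissible)

/-- **Rank and order of vanishing in quadratic extensions and in infinite towers.** -/
theorem result :
    (∀ (n : ℕ) (M : ℤ) (d : Fin n → ℤ), Admissible M d →
      (∀ D : ℕ, Ind (Fin.snoc d (D : ℤ) : Fin (n + 1) → ℤ) → GoodPair (M * D) d → Stable M d D) ∧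
      Tendsto (fun X : ℕ => (num (fun D => Ind (Fin.snoc d (D : ℤ) : Fin (n + 1) → ℤ) ∧
        GoodPair (M * D) d) X : ℝ) / (num (fun _ => True) X : ℝ)) atTop (𝓝 (c ^ 2 ^ n)) ∧
      (∀ ε : ℝ, 0 < ε → ∀ᶠ X : ℕ in atTop, (5 / (16 * Real.pi ^ 2) * c ^ 2 ^ n - ε) * X ≤
        (num (fun D => Ind (Fin.snoc d (D : ℤ) : Fin (n + 1) → ℤ) ∧ Stable M d D) X : ℝ)) ∧
      ∃ e : ℕ → ℤ, (∀ i : Fin n, e i = d i) ∧
        ∀ m, n ≤ m → Ind (fun i : Fin m => e i) ∧ Stable M (fun i : Fin m => e i) (e m)) ∧
    0.2887 < c ∧ c < 0.2888 := by
  obtain ⟨-, -, -, g2, g3⟩ := Pool.Agent.Results.MP_50bb2e_nt.MultiquadraticX15.result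
  refine ⟨fun n M d h => ⟨fun D hI hG => Pool.Agent.Helper723_X15.stable h.1 hI h.inClass hG,
    Pool.Agent.Helper723_X15.prop_ext h, fun ε hε => ?_, ?_⟩, g2, g3⟩
  · exact (Pool.Agent.Helper382_X15.low
      (R := fun D => Ind (Fin.snoc d (D : ℤ) : Fin (n + 1) → ℤ) ∧ Stable M d D)
      (fun D _ hQ => ⟨hQ.1, Pool.Agent.Helper723_X15.stable h.1 hQ.1 h.inClass hQ.2⟩)
      (Pool.Agent.Helper723_X15.prop_ext h) hε).2
  · obtain ⟨e, he, hs⟩ := Pool.Agent.Helper723_X15.exists_tower
      (Q := fun n d => Admissible M d) (R := fun n d D => Stable M d D)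
      (fun n d h => by
        obtain ⟨D, hD, hI, hG⟩ := Pool.Agent.Helper723_X15.exists_ext h (by linarith)
        exact ⟨D, Pool.Agent.Helper723_X15.stable h.1 hI h.inClass hG,
          Pool.Agent.Helper723_X15.admissible_snoc h hD hI hG⟩) h
    exact ⟨e, he, fun m hm => ⟨(hs m hm).1.1, (hs m hm).2⟩⟩

end Pool.Agent.Results.MP_413b36_nt.AnyRankX15
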